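import Pool.Agent.Lib.MP_d42654_co.Defs
import Pool.Agent.Lib.MP_d42654_co.Alg

namespace Pool.Agent.Results.MP_d42654_co.ComplementaryVector

open Pool.Agent.Lib.MP_d42654_co

theorem result (K : Type*) [Field K] (d : ℕ) (hd : 1 ≤ d) (a : ℕ → ℕ)
    (ha : IsPureOSequence K d a) :
    ∃ (r : ℕ) (h : Fin r → ℕ → ℕ), (∀ j, IsMVector K (h j)) ∧
      ∀ q ≤ (d - 1) / 2, (a (d - q) : ℤ) - (a q : ℤ) = ∑ j, (h j q : ℤ) := by
  obtain ⟨n, M, hM, haM⟩ := exists_ideal ha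
  obtain ⟨r, Z, hZ, hc⟩ := compl_vec d M hM
  refine ⟨r, fun j q => (rk (Z j) q).card, fun j => mVector_of_isIdl (hZ j), fun q hq => ?_⟩
  have h1 := hc q (by omega)
  rw [haM, haM, h1]
  push_cast
  ring

end Pool.Agent.Results.MP_d42654_co.ComplementaryVector
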